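import Pool.Agent.P8H30.LG.Stm
import Pool.Agent.H340R2.LW

/-!
Project LG, package ALG: a polynomial over a number field which vanishes on the hypersurface
`det = -π/2` is zero.
-/

set_option autoImplicit false

namespace Pool.Agent.P8H22.LG

open Pool.Agent.P8H30.LG

/-- The generic point of a line through `x`. -/
noncomputable def pt (K : Type) [Field K] (x : Option (Fin 2 × Fin 2) → K) :
    Option (Fin 2 × Fin 2) → Polynomial K := fun s =>
  if s = some (0, 0) then (Polynomial.X + Polynomial.C (x (some (0, 1)) * x (some (1, 0)))) *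
    Polynomial.C (x (some (1, 1)))⁻¹ else Polynomial.C (x s)

theorem pt_eval (K : Type) [Field K] (x : Option (Fin 2 × Fin 2) → K) (hx : x (some (1, 1)) ≠ 0)
    (s : Option (Fin 2 × Fin 2)) :
    Polynomial.eval (x (some (1, 1)) * x (some (0, 0)) - x (some (0, 1)) * x (some (1, 0)))
      (pt K x s) = x s := by
  rw [pt]
  split_ifs with h
  · subst h
    simp only [Polynomial.eval_mul, Polynomial.eval_add, Polynomial.eval_X, Polynomial.eval_C]
    field_simp
    ring
  · exact Polynomial.eval_C

theorem trans_pi (K : IntermediateField ℚ ℂ) (hK : FiniteDimensional ℚ K) :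
    Transcendental K (-((Real.pi / 2 : ℝ) : ℂ)) := by
  intro h
  have : Algebra.IsAlgebraic ℚ K := Algebra.IsAlgebraic.of_finite ℚ K
  have h1 : IsAlgebraic ℚ (-((Real.pi / 2 : ℝ) : ℂ)) := h.restrictScalars ℚ
  have h2 : IsAlgebraic ℚ ((-2 : ℂ)) := by
    have := isAlgebraic_algebraMap (R := ℚ) (A := ℂ) (-2 : ℚ)
    simpa using this
  apply Pool.Agent.H340R2.LW.transcendental_pi_complex
  have h3 := h2.mul h1
  have e : (-2 : ℂ) * -((Real.pi / 2 : ℝ) : ℂ) = (Real.pi : ℂ) := by
    push_cast
    ring
  rwa [e] at h3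

theorem alg : S_ALG := by
  intro K hK F hF
  classical
  have key : ∀ x : Option (Fin 2 × Fin 2) → K, x (some (1, 1)) ≠ 0 → MvPolynomial.eval x F = 0 := by
    intro x hx
    have h0 : Polynomial.aeval (-((Real.pi / 2 : ℝ) : ℂ)) (MvPolynomial.aeval (pt K x) F) = 0 := by
      have h1 : Polynomial.aeval (-((Real.pi / 2 : ℝ) : ℂ)) (MvPolynomial.aeval (pt K x) F) =
          MvPolynomial.aeval (fun s => Polynomial.aeval (-((Real.pi / 2 : ℝ) : ℂ)) (pt K x s)) F := by
        rw [← AlgHom.comp_apply, MvPolynomial.comp_aeval]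
      rw [h1]
      have hxc : ((x (some (1, 1)) : K) : ℂ) ≠ 0 := by
        intro h
        exact hx (by exact_mod_cast h)
      have h2 := hF ((x none : K) : ℂ)
        !![(-((Real.pi / 2 : ℝ) : ℂ) + (x (some (0, 1)) : ℂ) * (x (some (1, 0)) : ℂ)) *
            ((x (some (1, 1)) : K) : ℂ)⁻¹, (x (some (0, 1)) : ℂ);
          (x (some (1, 0)) : ℂ), ((x (some (1, 1)) : K) : ℂ)] (by
            rw [Matrix.det_fin_two_of]
            field_simp
            ring)
      rw [← h2]
      congr 1
      apply congrArg
      funext s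
      rcases s with _ | ⟨i, j⟩
      · simp [pt]
      · fin_cases i <;> fin_cases j <;> simp [pt]
    have hq : MvPolynomial.aeval (pt K x) F = 0 := by
      by_contra hne
      exact trans_pi K hK ⟨_, hne, h0⟩
    have h3 : Polynomial.eval
        (x (some (1, 1)) * x (some (0, 0)) - x (some (0, 1)) * x (some (1, 0)))
        (MvPolynomial.aeval (pt K x) F) = 0 := by rw [hq, Polynomial.eval_zero]
    rw [← Polynomial.coe_aeval_eq_eval, ← AlgHom.comp_apply, MvPolynomial.comp_aeval] at h3
    rw [← MvPolynomial.coe_aeval_eq_eval]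
    have e : (fun s => Polynomial.aeval
        (x (some (1, 1)) * x (some (0, 0)) - x (some (0, 1)) * x (some (1, 0))) (pt K x s)) = x := by
      funext s
      rw [Polynomial.coe_aeval_eq_eval]
      exact pt_eval K x hx s
    rw [e] at h3
    exact h3
  have h4 : F * MvPolynomial.X (some (1, 1)) = 0 := by
    apply MvPolynomial.funext
    intro x
    rw [map_mul, MvPolynomial.eval_X, map_zero]
    by_cases hx : x (some (1, 1)) = 0
    · rw [hx, mul_zero]
    · rw [key x hx, zero_mul]
  rcases mul_eq_zero.1 h4 with h | h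
  · exact h
  · exact absurd h (MvPolynomial.X_ne_zero _)

end Pool.Agent.P8H22.LG
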